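import Pool.Agent.MWGX.StmtsB

set_option autoImplicit false

/-!
# Row FG1 (MP_23468a_al, squad MWGX, part B)
-/

namespace Pool.Agent.MWGX.H34

open Pool.Agent.Helper14_MV Pool.Agent.Helper2_MV
open Pool.Agent.MWK (pre)
open Pool.Agent.MWF (gaml)
open Pool.Agent.MWGN (nn Nm WC WT Tau Ns nl sg)
open Pool.Agent.MWGQ (pw Gn E0 A0 P0 bd kr krl Rs)
open Pool.Agent.MWGR (X It Kaba F1 Dm Ec Es Ea Al0 Rh FE)
open Pool.Agent.MWGX

private theorem pw_flat (k : ℕ) (v : List ℕ) (f : ℕ → List ℕ) :
    (pw k v).flatMap f = pw k (v.flatMap f) := by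
  induction k with
  | zero => simp [pw]
  | succ k ih => rw [pw_succ, pw_succ, List.flatMap_append, ih]

private theorem gL_flat (n c : ℕ) (Z A B : List ℕ) (f : ℕ → List ℕ) :
    (gL n c Z A B).flatMap f = gL n c (Z.flatMap f) (A.flatMap f) (B.flatMap f) := by
  simp only [gL, List.flatMap_append, pw_flat]

private theorem gR_flat (n c : ℕ) (Z A B : List ℕ) (f : ℕ → List ℕ) :
    (gR n c Z A B).flatMap f = gR n c (Z.flatMap f) (A.flatMap f) (B.flatMap f) := by
  simp only [gR, List.flatMap_append, pw_flat]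

private theorem sing_flat (a : ℕ) (f : ℕ → List ℕ) : ([a] : List ℕ).flatMap f = f a := by simp

private theorem bd_succ (n : ℕ) (L C : ℕ → List ℕ) (m : ℕ) :
    bd n L C (m + 1) = bd n L C m ++ (L m ++ pw (n + 1) (C m)) := by
  simp [bd, List.range_succ, List.flatMap_append]

/-- the contents -/
private def cc (n m : ℕ) (f : ℕ → List ℕ) (i : ℕ) : List ℕ :=
  if 1 ≤ i ∧ i ≤ m then pw (n + 1) (f (N1.C (i - 1))) else []

private theorem bd_cc (n m : ℕ) (f : ℕ → List ℕ) : ∀ k ≤ m,
    (List.range k).flatMap (fun i => cc n m f i ++ f (N1.L i)) ++ cc n m f k =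
      (bd n (sg N1.L) (sg N1.C) k).flatMap f := by
  intro k
  induction k with
  | zero =>
    intro _
    simp [cc, bd]
  | succ k ih =>
    intro hk
    rw [bd_succ, List.flatMap_append, ← ih (by omega), List.range_succ, List.flatMap_append,
      List.flatMap_append, pw_flat]
    have e1 : cc n m f (k + 1) = pw (n + 1) (f (N1.C k)) := by
      unfold cc
      rw [if_pos ⟨by omega, hk⟩, Nat.add_sub_cancel]
    rw [e1]
    simp [sg, List.append_assoc]

private theorem two_pw {e d : ℕ} {v : List ℕ} (he : 2 ≤ e) (hd : d ∈ pw e v) :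
    2 ≤ (pw e v).count d := by
  have h1 : 0 < v.count d := List.count_pos_iff.2 (mem_pw hd)
  rw [count_pw]
  calc 2 ≤ e * 1 := by omega
    _ ≤ e * v.count d := Nat.mul_le_mul_left e h1

theorem fg1 : Fg1Stmt := by
  intro n hn τ m hτ f o'
  obtain ⟨e1, e2, e3, he1, he2, he3, hE⟩ : ∃ e1 e2 e3 : ℕ, 2 ≤ e1 ∧ 2 ≤ e2 ∧ 2 ≤ e3 ∧
      (if o' then gL n 1 (f 6) (f (N1.L m)) (f (N1.L (m + 1))) else
        gR n 1 (f 6) (f (N1.L m)) (f (N1.L (m + 1)))) =
      pw e1 (f 6) ++ ((if o' then f (N1.L m) else f (N1.L (m + 1))) ++ (pw e2 (f 6) ++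
        ((if o' then f (N1.L (m + 1)) else f (N1.L m)) ++ pw e3 (f 6)))) := by
    cases o'
    · exact ⟨n + 1, n + (n - 1) * 1, n + 1, by omega, by omega, by omega, rfl⟩
    · exact ⟨n, n + 1, n, hn, by omega, hn, rfl⟩
  obtain ⟨u, hu⟩ : ∃ u : ℕ → List ℕ, u = fun i => cc n m f i ++ (if i = m then pw e1 (f 6) else
      if i = m + 1 then pw e2 (f 6) else if i = m + 2 then pw e3 (f 6) else []) := ⟨_, rfl⟩
  obtain ⟨g, hg⟩ : ∃ g : ℕ → List ℕ, g = fun i => if i = m then
      (if o' then f (N1.L m) else f (N1.L (m + 1))) else if i = m + 1 then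
        (if o' then f (N1.L (m + 1)) else f (N1.L m)) else f (N1.L i) := ⟨_, rfl⟩
  have gm : g m = (if o' then f (N1.L m) else f (N1.L (m + 1))) := by rw [hg]; simp
  have gm1 : g (m + 1) = (if o' then f (N1.L (m + 1)) else f (N1.L m)) := by rw [hg]; simp
  have gi : ∀ i < m, g i = f (N1.L i) := by
    intro i hi
    rw [hg]
    simp only
    rw [if_neg (by omega), if_neg (by omega)]
  have um : u m = cc n m f m ++ pw e1 (f 6) := by rw [hu]; simp
  have um1 : u (m + 1) = pw e2 (f 6) := by
    rw [hu]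
    simp only
    rw [if_neg (by omega), if_pos trivial]
    unfold cc
    rw [if_neg (by omega)]
    rfl
  have um2 : u (m + 2) = pw e3 (f 6) := by
    rw [hu]
    simp only
    rw [if_neg (by omega), if_neg (by omega), if_pos trivial]
    unfold cc
    rw [if_neg (by omega)]
    rfl
  have ui : ∀ i < m, u i = cc n m f i := by
    intro i hi
    rw [hu]
    simp only
    rw [if_neg (by omega), if_neg (by omega), if_neg (by omega), List.append_nil]
  -- the middle part
  have hG : ghc g u (m + 2) = (bd n (sg N1.L) (sg N1.C) m).flatMap f ++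
      (if o' then gL n 1 (f 6) (f (N1.L m)) (f (N1.L (m + 1))) else
        gR n 1 (f 6) (f (N1.L m)) (f (N1.L (m + 1)))) := by
    have h1 : (List.range m).flatMap (fun i => u i ++ g i) =
        (List.range m).flatMap (fun i => cc n m f i ++ f (N1.L i)) := by
      apply List.flatMap_congr
      intro i hi
      rw [ui i (List.mem_range.1 hi), gi i (List.mem_range.1 hi)]
    rw [hE, ← bd_cc n m f m le_rfl]
    unfold ghc
    rw [List.range_succ, List.range_succ, List.flatMap_append, List.flatMap_append, h1]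
    simp only [List.flatMap_cons, List.flatMap_nil, List.append_nil, um, um1, um2, gm, gm1,
      List.append_assoc]
  -- the rest
  obtain ⟨H, hH⟩ : ∃ H : List ℕ, H = f 3 ++ ((τ.flatMap (fun i => N1.S i :: T1 n m i)).flatMap f ++
      (f 4 ++ (τ.flatMap (fun i => (N2 m).S i :: T2 m i)).flatMap f)) := ⟨_, rfl⟩
  have hblock : ∀ i ≤ m, ∃ H1 H2, H = H1 ++ ((T1 n m i).flatMap f ++ H2) := by
    intro i hi
    obtain ⟨s, t, hst⟩ := List.append_of_mem ((hτ.2 i).2 hi)
    refine ⟨f 3 ++ ((s.flatMap (fun i => N1.S i :: T1 n m i)).flatMap f ++ f (N1.S i)),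
      (t.flatMap (fun i => N1.S i :: T1 n m i)).flatMap f ++
        (f 4 ++ (τ.flatMap (fun i => (N2 m).S i :: T2 m i)).flatMap f), ?_⟩
    have key : (τ.flatMap (fun i => N1.S i :: T1 n m i)).flatMap f =
        (s.flatMap (fun i => N1.S i :: T1 n m i)).flatMap f ++ (f (N1.S i) ++
          ((T1 n m i).flatMap f ++ (t.flatMap (fun i => N1.S i :: T1 n m i)).flatMap f)) := by
      rw [hst]
      simp only [List.flatMap_append, List.flatMap_cons, List.append_assoc]
    rw [hH, key]
    simp only [List.append_assoc]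
  have hlast : ∃ H1 H2 H3, H = H1 ++ (f (N1.L m) ++ (H2 ++ (f (N1.L (m + 1)) ++ H3))) := by
    obtain ⟨H1, H2, h12⟩ := hblock m le_rfl
    refine ⟨H1, (bd n (sg (N2 m).L) (sg (N2 m).C) (m + 2)).flatMap f ++ f ((N2 m).L (m + 2)), H2, ?_⟩
    rw [h12]
    unfold T1
    rw [if_pos rfl]
    simp only [List.flatMap_append, List.flatMap_cons, List.flatMap_nil, List.append_nil,
      List.append_assoc]
  refine ⟨g, u, H, ?_, ?_, ?_, ?_, hlast⟩
  · intro o
    have ho : (w0 n τ m o o').flatMap f = (if o then gL n 1 (f 5) (f 0) (f 1) else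
        gR n 1 (f 5) (f 0) (f 1)) ++ (ww n τ m o').flatMap f := by
      unfold w0
      rw [List.flatMap_append]
      cases o
      · rw [if_neg (by simp), if_neg (by simp), gR_flat, sing_flat, sing_flat, sing_flat]
      · rw [if_pos rfl, if_pos rfl, gL_flat, sing_flat, sing_flat, sing_flat]
    have hw : (ww n τ m o').flatMap f = f 2 ++ (f 0 ++ (ghc g u (m + 2) ++ (f 1 ++ H))) := by
      rw [hG, hH]
      unfold ww
      cases o'
      · simp only [Bool.false_eq_true, if_false, List.flatMap_append, List.flatMap_cons, gR_flat,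
          List.flatMap_nil, List.append_nil, List.append_assoc]
      · simp only [if_true, List.flatMap_append, List.flatMap_cons, gL_flat,
          List.flatMap_nil, List.append_nil, List.append_assoc]
    rw [ho, hw]
  · intro i hi
    rcases Nat.lt_or_ge i m with h1 | h1
    · obtain ⟨H1, H2, h12⟩ := hblock i (by omega)
      refine ⟨H1, H2, ?_⟩
      rw [h12, gi i h1]
      unfold T1
      rw [if_neg (by omega), sing_flat]
    · obtain ⟨H1, H2, H3, h123⟩ := hlast
      have hA : ∃ H1 H2, H = H1 ++ (f (N1.L m) ++ H2) := ⟨H1, _, h123⟩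
      have hB : ∃ H1 H2, H = H1 ++ (f (N1.L (m + 1)) ++ H2) :=
        ⟨H1 ++ (f (N1.L m) ++ H2), H3, by rw [h123]; simp [List.append_assoc]⟩
      rcases Nat.eq_or_lt_of_le h1 with h2 | h2
      · rw [← h2, gm]
        cases o'
        · exact hB
        · exact hA
      · have h3 : i = m + 1 := by omega
        rw [h3, gm1]
        cases o'
        · exact hA
        · exact hB
  · intro i hi d hd
    rw [hu] at hd ⊢
    simp only at hd ⊢
    rw [List.count_append]
    rcases List.mem_append.1 hd with h1 | h1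
    · have h2 : 2 ≤ (cc n m f i).count d := by
        unfold cc at h1 ⊢
        by_cases h3 : 1 ≤ i ∧ i ≤ m
        · rw [if_pos h3] at h1 ⊢
          exact two_pw (by omega) h1
        · rw [if_neg h3] at h1
          simp at h1
      omega
    · have h2 : 2 ≤ (if i = m then pw e1 (f 6) else
          if i = m + 1 then pw e2 (f 6) else if i = m + 2 then pw e3 (f 6) else []).count d := by
        split_ifs at h1 ⊢
        · exact two_pw he1 h1
        · exact two_pw he2 h1
        · exact two_pw he3 h1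
        · simp at h1
      omega
  · intro ho
    rw [gm, gm1, ho]
    exact ⟨rfl, rfl⟩

end Pool.Agent.MWGX.H34
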