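import Pool.Agent.MWGX.StmtsA

set_option autoImplicit false

/-!
# Row PN2 (MP_23468a_al, squad MWGX)
-/

namespace Pool.Agent.MWGX.H34

open Pool.Agent.Helper14_MV Pool.Agent.Helper2_MV
open Pool.Agent.MWK (pre)
open Pool.Agent.MWF (gaml)
open Pool.Agent.MWGN (nn)
open Pool.Agent.MWGQ (pw Gn E0 A0 P0)
open Pool.Agent.MWGR (X It Kaba F1 Dm Ec Es Ea Al0 Rh FE)
open Pool.Agent.MWGX

private theorem two_ab {n c : ℕ} {p Z A B F G H w w' : List ℕ} (h : Ex n c p Z A B F G H w w')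
    {d : ℕ} (hd : d ∈ A ++ B) : 2 ≤ w.count d := by
  have hpos : 0 < A.count d ∨ 0 < B.count d := by
    rcases List.mem_append.1 hd with h1 | h1
    · exact Or.inl (List.count_pos_iff.2 h1)
    · exact Or.inr (List.count_pos_iff.2 h1)
  rw [h.e]
  simp only [gL, List.count_append]
  omega

theorem pn2 (hDGR : DgrStmt) (hOXV : OxvStmt) (hLBW : LbwStmt) (hESV : EsvStmt) (hABV : AbvStmt)
    (hEXS : ExsStmt) (hEXL : ExlStmt) (hEXO : ExoStmt) (hINS : InsStmt) (hKES : KesStmt)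
    (hSKK : SkkStmt) (hEI2 : Ei2Stmt) : Pn2Stmt := by
  intro n β hM hG hE0 hI
  by_contra hne
  have hF : ¬ F1 n (RR β) := fun h => hne (Or.inl h)
  have hE : ¬ Es n 1 (RR β) := fun h => hne (Or.inr h)
  obtain ⟨δ, hδ⟩ := hDGR n β hG.pos hI
  -- labels
  have lb_n : ∀ u v : List ℕ, KK u → (∀ d q, d ≠ 3 → q ≠ 3 → nn u q 3 = 1 →
      nn u d 3 = u.count d → nn u d q ≡ nn v d q [MOD n]) → (Lb δ u ↔ Lb δ v) := by
    intro u v hk h
    have h1 := (h 0 1 (by norm_num) (by norm_num) hk.a3 hk.x3).of_dvd hδ.dv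
    have h2 := (h 0 2 (by norm_num) (by norm_num) hk.b3 hk.x3).of_dvd hδ.dv
    constructor
    · intro hl
      exact (h2.symm.trans hl).trans (h1.add_right 1)
    · intro hl
      exact (h2.trans hl).trans (h1.symm.add_right 1)
  have lb_b : ∀ u v : List ℕ, RR β u v → KK u → Lb δ u → Lb δ v := by
    intro u v huv hk hl
    have h1 := hLBW n β δ hG hE0 hI hδ u v huv 0 1 3 hk.s3 hk.a2 hk.a3 hk.x2 hk.x3
    have h2 := hLBW n β δ hG hE0 hI hδ u v huv 0 2 3 hk.s3 hk.b2 hk.b3 hk.x2 hk.x3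
    exact (h2.symm.trans hl).trans (h1.add_right 1)
  let Kb : List ℕ → Prop := fun w => KK w ∧ Lb δ w ∧ nn w 1 2 = 1
  let Kc : List ℕ → Prop := fun w => KK w ∧ Ab w ∧ Lb δ w
  have hb : β ≤ gaml Kb := by
    apply MWF.le_gaml
    rintro u v huv ⟨hk, hl, ho⟩
    refine ⟨(hOXV n β hG hE0 u v huv).1.kk hk, lb_b u v huv hk hl, ?_⟩
    by_contra hno
    exact hE (hESV n β δ hG hE0 hI hδ u v huv hk.s3 hk.x2 hk.x3 hk.a2 hk.a3 hk.b2 hk.b3 ho hno 1 hl)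
  have hc : β ≤ gaml Kc := by
    apply MWF.le_gaml
    rintro u v huv ⟨hk, ha, hl⟩
    exact ⟨(hOXV n β hG hE0 u v huv).1.kk hk, hABV n β hG hE0 hF u v huv hk ha,
      lb_b u v huv hk hl⟩
  -- exchanges keep Kc
  have keepc : ∀ (p Z A B F G H w w' : List ℕ), Ex n 1 p Z A B F G H w w' → Gd A G H w →
      (Kc w ↔ Kc w') := by
    intro p Z A B F G H w w' hex hgd
    obtain ⟨ox, ob, _⟩ := hEXS n 1 p Z A B F G H w w' hG.pos hex
    have hl := hEXL n 1 p Z A B F G H w w' hG.pos hex hgd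
    have lbw : KK w → (Lb δ w ↔ Lb δ w') := fun hk =>
      lb_n w w' hk fun d q hd hq h1 h2 => hl d q 3 hk.s3 hq hd h1 h2
    constructor
    · rintro ⟨hk, ha, hl'⟩
      exact ⟨ox.kk hk, (ob.ab hk).1 ha, (lbw hk).1 hl'⟩
    · rintro ⟨hk', ha', hl'⟩
      have hk := ox.symm.kk hk'
      exact ⟨hk, (ob.ab hk).2 ha', (lbw hk).2 hl'⟩
  -- sigma
  have hσ : F1 n (RR (gaml Kb)) := by
    apply MWF.RR_gaml
    intro f p q
    rw [flat_fl, flat_fr]
    obtain ⟨ox, hl, h1⟩ := hINS n p (f 0) (f 2) (f 3 ++ (f 0 ++ (f 0 ++ q))) _ _ rfl rfl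
      (Or.inl fun d hd => by simp [hd])
    have lbw := fun hk => lb_n _ _ hk fun d q _ _ _ _ => hl d q
    constructor
    · rintro ⟨hk, hl', ho⟩
      exact ⟨ox.kk hk, (lbw hk).1 hl', (h1 1 2).1 ho⟩
    · rintro ⟨hk', hl', ho⟩
      have hk := ox.symm.kk hk'
      exact ⟨hk, (lbw hk).2 hl', (h1 1 2).2 ho⟩
  -- tau
  have hτ : Ea n 1 (RR (gaml Kc)) := by
    apply MWF.RR_gaml
    intro f p q
    exact keepc _ _ _ _ _ _ _ _ _ (ex_ea n 1 f p q) (Or.inr ⟨f 5, q, rfl⟩)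
  -- rho
  have hρc : Es n 1 (RR (gaml Kc)) := by
    apply MWF.RR_gaml
    intro f p q
    exact keepc _ _ _ _ _ _ _ _ _ (ex_es n 1 f p q) (Or.inl fun d hd => absurd hd (by simp))
  have hρb : Es n 1 (RR (gaml fun w => Kb w ∧ Kc w)) := by
    apply MWF.RR_gaml
    intro f p q
    have hex := ex_es n 1 f p q
    generalize (p ++ (X n ++ 1 :: (X (n + 1) ++ 2 :: (X n ++ [3, 1, 2]))).flatMap f ++ q) = w at hex ⊢
    generalize (p ++ (X (n + 1) ++ 2 :: (X (n + (n - 1) * 1) ++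
        1 :: (X (n + 1) ++ [3, 1, 2]))).flatMap f ++ q) = w' at hex ⊢
    have hkc := keepc _ _ _ _ _ _ _ _ _ hex (Or.inl fun d hd => absurd hd (by simp))
    have hord : Kc w → (nn w 1 2 = 1 ↔ nn w' 1 2 = 1) := by
      rintro ⟨hk, ha, _⟩
      have key : 3 ∈ f 3 → ¬ (1 ∈ f 1 ++ f 2 ∧ 2 ∈ f 1 ++ f 2) := by
        intro h3
        refine hKES w (p ++ (gL n 1 (f 0) (f 1) (f 2) ++ f 3)) (f 1 ++ f 2) q ?_ hk ha ?_ ?_ ?_
        · rw [hex.e]
          simp [List.append_assoc]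
        · simp [h3]
        · intro h4
          have := two_ab hex h4
          rw [hk.s4] at this
          omega
        · intro h5
          have := two_ab hex h5
          rw [hk.s5] at this
          omega
      have hx := hEXO n 1 _ _ _ _ _ _ _ w w' hG.pos hex 1 2 3 hk.s3 (by norm_num) (by norm_num)
        hk.a3 hk.b3
      constructor
      · intro h1
        by_contra h2
        obtain ⟨q1, q2, q3, _⟩ := hx.1 h1 h2
        exact key q3 ⟨List.mem_append_left _ q1, List.mem_append_right _ q2⟩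
      · intro h1
        by_contra h2
        obtain ⟨q1, q2, q3, _⟩ := hx.2 h1 h2
        exact key q3 ⟨List.mem_append_right _ q1, List.mem_append_left _ q2⟩
    constructor
    · rintro ⟨⟨_, _, ho⟩, hkc1⟩
      have hkc2 := hkc.1 hkc1
      exact ⟨⟨hkc2.1, hkc2.2.2, (hord hkc1).1 ho⟩, hkc2⟩
    · rintro ⟨⟨_, _, ho⟩, hkc2⟩
      have hkc1 := hkc.2 hkc2
      exact ⟨⟨hkc1.1, hkc1.2.2, (hord hkc1).2 ho⟩, hkc1⟩
  have hbθ : β ≤ FIC.sup (FIC.inf (gaml fun w => Kb w ∧ Kc w) (gaml Kc)) (gaml Kb) :=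
    fun a b h => FIC.le_sup_right _ _ _ _ (hb a b h)
  have hF1 : F1 n (RR (FIC.sup (FIC.inf (gaml fun w => Kb w ∧ Kc w) (gaml Kc)) (gaml Kb))) :=
    FIC.le_sup_right _ _ _ _ hσ
  have hEs : Es n 1 (RR (FIC.sup (FIC.inf (gaml fun w => Kb w ∧ Kc w) (gaml Kc)) (gaml Kb))) :=
    FIC.le_sup_left _ _ _ _ (show RR (FIC.inf (gaml fun w => Kb w ∧ Kc w) (gaml Kc)) _ _ from
      ⟨hρb, hρc⟩)
  have hEa := hEI2 n β _ hG hbθ hF1 1 hEs
  obtain ⟨k1, k2, k3, k4, k5⟩ := hSKK n δ hG.pos hδ.dv _ _ rfl rfl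
  have hv := pen hM Kb Kc hb hc hEa hτ ⟨⟨k1, k4, k3⟩, ⟨k1, k2, k4⟩⟩
  have := hv.1.2.2
  rw [k5] at this
  exact absurd this (by norm_num)

end Pool.Agent.MWGX.H34
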